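import Pool.Agent.H75.GG.Targets2

/-!
# Row GLB of gsg_modules: there is a good configuration
-/

set_option autoImplicit false

namespace Pool.Agent.H51.GG

open Finset Filter Pool.Agent.H6.NB Pool.Agent.H70.OQ Pool.Agent.H75.GS Pool.Agent.H75.GG

/-- The states for two oracles which agree at the queried strings. -/
lemma state_congr (Q : QAlg) (O O' : List Bool → Bool)
    (h : ∀ i w, Q.query i = some w → O w = O' w) (t : ℕ) : Q.state O t = Q.state O' t := by
  have h1 : ∀ i, Q.phase O i = Q.phase O' i := by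
    intro i
    unfold QAlg.phase
    cases hq : Q.query i with
    | none => rfl
    | some w => simp only [h i w hq]
  induction t with
  | zero => rfl
  | succ t ih =>
    rw [QAlg.state, QAlg.state, ih]
    congr 1
    funext i
    rw [h1]

/-- The cells of length at most `l`. -/
noncomputable def bw (l : ℕ) : Finset (ℕ ⊕ List Bool) :=
  (Finset.range (l + 1)).image Sum.inl ∪
    ((List.finite_length_le Bool l).toFinset).image Sum.inr

lemma agc_of_bw {G : Dat} {l : ℕ} {ω ω' : Cfg G} (h : ∀ i ∈ bw l, ω i = ω' i) : AgC l ω ω' := by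
  refine ⟨fun n hn => h _ ?_, fun s hs => h _ ?_⟩
  · unfold bw
    exact Finset.mem_union_left _ (Finset.mem_image_of_mem _ (Finset.mem_range.2 (by omega)))
  · unfold bw
    refine Finset.mem_union_right _ (Finset.mem_image_of_mem _ ?_)
    rw [Set.Finite.mem_toFinset]
    exact hs

/-- The events. -/
def bev {G : Dat} (ι : ℕ → Type) (S : ∀ n, ι n → Sampler)
    (Eo : ∀ n, ι n → (List Bool → Bool) → List Bool → Bool) (J : ℕ → Type)
    (Q : ∀ n, J n → List Bool → QAlg) : Evs G → Cfg G → Prop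
  | .inl n => fun ω => G.n0 ≤ n ∧ BdA J Q n ω
  | .inr (.inl c) => fun ω => G.n0 ≤ c.1 ∧ BdH ι S Eo c.1 c.2 ω
  | .inr (.inr s) => fun ω => G.n0 ≤ s.length ∧ ¬ DcS ω s

/-- The lengths of the events. -/
def lth {G : Dat} : Evs G → ℕ
  | .inl n => G.H n
  | .inr (.inl c) => max (G.H c.1) (G.N c.1)
  | .inr (.inr s) => s.length

/-- The cells which are sampled again. -/
noncomputable def lcs {G : Dat} (hF : ∀ n a : ℕ, Finite (Om n a)) : Evs G → Finset (ℕ ⊕ List Bool)
  | .inl n => {Sum.inl n}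
  | .inr (.inl c) =>
    haveI := hF c.1 (2 ^ G.aa c.1)
    haveI := Fintype.ofFinite (Om c.1 (2 ^ G.aa c.1))
    insert (Sum.inl c.1) ((univ : Finset (Om c.1 (2 ^ G.aa c.1))).image fun s => Sum.inr s.1)
  | .inr (.inr s) => {Sum.inr s}

lemma ic_false {p : Prop} (h : ¬ p) : ic p = 0 := by
  unfold ic
  exact if_neg h

lemma ic_congr {p q : Prop} (h : p ↔ q) : ic p = ic q := by
  rw [propext h]

theorem bdA_dep (hDEP : T_DEP) {G : Dat} {J : ℕ → Type} [∀ n, Fintype (J n)]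
    {Q : ∀ n, J n → List Bool → QAlg} (hQ : OKQ G J Q) (hl : LocA G.acc) {n : ℕ} (hn : G.n0 ≤ n)
    (hlen : 3 * n + 1 ≤ G.H n) {ω ω' : Cfg G} (h : AgC (G.H n) ω ω') (hB : BdA J Q n ω) :
    BdA J Q n ω' := by
  obtain ⟨h1, _⟩ := hDEP G ω ω' (G.H n) hl h
  obtain ⟨_, τ, _, _, hS⟩ := hQ n hn
  obtain ⟨j, hj⟩ := hB
  refine ⟨j, fun x hx => ?_⟩
  have h2 := hj x hx
  have h3 : ∀ i w, (Q n j x).query i = some w → wld ω w = wld ω' w := fun i w hi =>
    h1 w ((hS j x hx).1 i w hi)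
  have h4 : (Q n j x).prob (wld ω) = (Q n j x).prob (wld ω') := by
    unfold QAlg.prob
    rw [state_congr _ _ _ h3]
  have h5 : x ∈ wlang (wld ω) ↔ x ∈ wlang (wld ω') := by
    unfold wlang
    simp only [Set.mem_ofPred_eq]
    refine exists_congr fun v => and_congr_right fun hv => ?_
    rw [h1 _ (by simp only [List.length_cons, List.length_append]; omega)]
  unfold Correct at h2 ⊢
  rw [← h4, ← h5]
  exact h2

theorem bdH_dep (hDEP : T_DEP) {G : Dat} {ι : ℕ → Type} [∀ n, Fintype (ι n)]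
    {S : ∀ n, ι n → Sampler} {Eo : ∀ n, ι n → (List Bool → Bool) → List Bool → Bool}
    (hS : OKS G ι S Eo) (hl : LocA G.acc) {n : ℕ} (hn : G.n0 ≤ n)
    (hlen : 3 * n + 1 ≤ G.H n) {k : Fin (G.r n)} {ω ω' : Cfg G}
    (h : AgC (max (G.H n) (G.N n)) ω ω') (hB : BdH ι S Eo n k ω) :
    BdH ι S Eo n k ω' := by
  obtain ⟨h1, h2⟩ := hDEP G ω ω' _ hl h
  have hE : Enk ω n k = Enk ω' n k := h2 n k (by omega) (by omega)
  obtain ⟨_, hS2⟩ := hS n hn
  obtain ⟨i, hi⟩ := hB
  obtain ⟨⟨hsh, _⟩, hext⟩ := hS2 i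
  refine ⟨i, ?_⟩
  have h3 : ∀ z w, (S n i).alg.query z = some w → Eo n i (wld ω) w = Eo n i (wld ω') w := by
    intro z w hz
    rcases hext w (hsh z w hz) with h4 | ⟨v, hv, h4⟩ | ⟨s, hs, Y, h4⟩
    · exact h4 _ _ fun v hv => h1 v (by omega)
    · rw [h4, h4]
      exact h1 v (by omega)
    · have h5 : G.acc s (wld ω) ↔ G.acc s (wld ω') := by
        refine hl s _ _ fun u hu => h1 u ?_
        have h6 : u.length ≤ u.length ^ 2 := Nat.le_self_pow (by norm_num) _
        omega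
      have h6 : Eo n i (wld ω) w = true ↔ Eo n i (wld ω') w = true := by
        rw [h4, h4, h5]
      exact Bool.eq_iff_iff.2 h6
  have h4 : (S n i).hit (Eo n i (wld ω)) (Enk ω n k) = (S n i).hit (Eo n i (wld ω')) (Enk ω' n k) := by
    unfold Sampler.hit
    rw [hE, state_congr _ _ _ h3]
  rw [← h4]
  exact hi

theorem pf_GLB (hUN1 : T_UN1) (hUN2 : T_UN2) (hTR1 : T_TR1) (hHID : T_HID) (hHRD : T_HRD)
    (hDCE : T_DCE) (hSUM : T_SUM) (hDEP : T_DEP) (hWGT : T_WGT) (hUNQ : T_UNQ)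
    (hPCG : Pool.Agent.H6.NB.T_PCG) (hFIS : Pool.Agent.H6.NB.T_FIS) : T_GLB := by
  intro G K hG ι _ S Eo hS J _ Q hQ
  obtain ⟨hW1, hW2, hW3⟩ := hWGT G hG.lab
  haveI := hW1
  have hF := hFIS.2.1
  have hdep : ∀ (e : Evs G) (ω ω' : Cfg G), (∀ i ∈ bw (lth e), ω i = ω' i) →
      bev ι S Eo J Q e ω → bev ι S Eo J Q e ω' := by
    intro e ω ω' h hB
    have h0 := agc_of_bw h
    match e, h0, hB with
    | .inl n, h0, hB =>
      exact ⟨hB.1, bdA_dep hDEP hQ hG.loc hB.1 (hG.len n hB.1) h0 hB.2⟩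
    | .inr (.inl c), h0, hB =>
      exact ⟨hB.1, bdH_dep hDEP hS hG.loc hB.1 (hG.len c.1 hB.1) h0 hB.2⟩
    | .inr (.inr s), h0, hB =>
      refine ⟨hB.1, ?_⟩
      have h1 : ω (.inr s) = ω' (.inr s) := h0.2 s le_rfl
      have h2 := hB.2
      unfold DcS cfK cfP at h2 ⊢
      rw [← h1]
      exact h2
  have hbd : ∀ (e : Evs G) (ω : Cfg G), ∑ τ : ∀ i : (lcs (G := G) hF e), Val G i,
      (∏ i, wgt G i.1 (τ i)) * ic (bev ι S Eo J Q e (glue (lcs hF e) ω τ)) ≤ dlt G e := by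
    intro e ω
    match e with
    | .inl n =>
      by_cases hn : G.n0 ≤ n
      · have h1 := hTR1 _ (Val G) (wgt G) ω (.inl n) (fun ω => ic (BdA J Q n ω))
        have h2 := hHRD G K hG J Q hQ n hn ω
        have h3 : dlt G (.inl n) = 1 / 2 ^ n := if_pos hn
        rw [h3, ← h1] at *
        refine le_trans (le_of_eq ?_) h2
        refine Finset.sum_congr rfl fun τ _ => ?_
        congr 1
        exact ic_congr ⟨fun h => h.2, fun h => ⟨hn, h⟩⟩
      · have h3 : dlt G (.inl n) = 0 := if_neg hn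
        rw [h3]
        refine Finset.sum_nonpos fun τ _ => ?_
        rw [ic_false (fun h => hn h.1), mul_zero]
    | .inr (.inl c) =>
      by_cases hn : G.n0 ≤ c.1
      · have h2 := hHID G K hG ι S Eo hS c.1 hn c.2 (lcs hF (.inr (.inl c))) (by
          intro i
          unfold lcs
          simp only [Finset.mem_insert, Finset.mem_image, Finset.mem_univ, true_and]
          constructor
          · rintro (h | ⟨s, h⟩)
            · exact Or.inl h
            · exact Or.inr ⟨s, h.symm⟩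
          · rintro (h | ⟨s, h⟩)
            · exact Or.inl h
            · exact Or.inr ⟨s, h.symm⟩) ω
        have h3 : dlt G (.inr (.inl c)) = G.r c.1 * 2 ^ (c.1 / 2 + 7) / 2 ^ c.1 := if_pos hn
        rw [h3]
        refine le_trans (le_of_eq ?_) h2
        refine Finset.sum_congr rfl fun τ _ => ?_
        congr 1
        exact ic_congr ⟨fun h => h.2, fun h => ⟨hn, h⟩⟩
      · have h3 : dlt G (.inr (.inl c)) = 0 := if_neg hn
        rw [h3]
        refine Finset.sum_nonpos fun τ _ => ?_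
        rw [ic_false (fun h => hn h.1), mul_zero]
    | .inr (.inr s) =>
      by_cases hn : G.n0 ≤ s.length
      · have h1 := hTR1 _ (Val G) (wgt G) ω (.inr s) (fun ω => ic (¬ DcS ω s))
        have h2 := hDCE G s ω
        have h3 : dlt G (.inr (.inr s)) = (1 / 4) ^ s.length := if_pos hn
        rw [h3, ← h1] at *
        refine le_trans (le_of_eq ?_) h2
        refine Finset.sum_congr rfl fun τ _ => ?_
        congr 1
        exact ic_congr ⟨fun h => h.2, fun h => ⟨hn, h⟩⟩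
      · have h3 : dlt G (.inr (.inr s)) = 0 := if_neg hn
        rw [h3]
        refine Finset.sum_nonpos fun τ _ => ?_
        rw [ic_false (fun h => hn h.1), mul_zero]
  have hfin : ∀ F : Finset (Evs G), ∃ ω : Cfg G, ∀ e ∈ F, ¬ bev ι S Eo J Q e ω := by
    intro F
    exact hUN1 _ _ (Val G) (wgt G) hW2 hW3 (bev ι S Eo J Q) (lcs hF) (fun e => bw (lth e)) (dlt G)
      hdep hbd F (hSUM G hG.n64 (fun n hn => (hG.rr n hn).2.1) F)
  obtain ⟨ω, hω⟩ := hUN2 _ _ (Val G) (bev ι S Eo J Q) (fun e => bw (lth e)) hdep hfin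
  refine ⟨ω, fun n hn h => hω (.inl n) ⟨hn, h⟩, fun n hn k h => hω (.inr (.inl ⟨n, k⟩)) ⟨hn, h⟩,
    fun s hs => ?_⟩
  by_contra h
  exact hω (.inr (.inr s)) ⟨hs, h⟩

end Pool.Agent.H51.GG
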